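import Pool.Agent.Helper29.BL.GoalsC

/-!
# MP_a41896_nt, project BL: extension of a substitution to an automorphism of `Ω`
-/

set_option autoImplicit false

namespace Pool.Agent.Helper22.BL

open Polynomial Pool.Agent.Helper29.BL
open scoped Polynomial.Bivariate

noncomputable section

variable {K Ω : Type} [Field K] [Field Ω] [Algebra K Ω]

/-- The evaluation at `X = x`. -/
def ph0 (K : Type) [Field K] {Ω : Type} [Field Ω] [Algebra K Ω] (x : Ω) : K[X] →+* Ω :=
  eval₂RingHom (algebraMap K Ω) x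

/-- The evaluation at `X = x`, `Y = y`. -/
def ph (K : Type) [Field K] {Ω : Type} [Field Ω] [Algebra K Ω] (x y : Ω) : K[X][Y] →+* Ω :=
  eval₂RingHom (ph0 K x) y

theorem evO_eq (F : K[X][Y]) (x y : Ω) : evO F (x, y) = ph K x y F := by
  unfold evO ev
  rw [← eval₂_eval₂RingHom_apply]
  rfl

theorem ph_C (x y : Ω) (p : K[X]) : ph K x y (C p) = ph0 K x p := eval₂_C _ _

theorem ph_X (x y : Ω) : ph K x y X = y := eval₂_X _ _

theorem ph0_C (x : Ω) (r : K) : ph0 K x (C r) = algebraMap K Ω r := eval₂_C _ _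

theorem ph0_X (x : Ω) : ph0 K x X = x := eval₂_X _ _

theorem ph0_inj {x : Ω} (hx : Transcendental K x) : Function.Injective (ph0 K x) :=
  transcendental_iff_injective.1 hx

/-- The kernel of the substitution `(α, β)` is `(Φ)`. -/
theorem ker_ph {Φ : K[X][Y]} (hΦ : Irreducible Φ) (hd : 1 ≤ Φ.natDegree) {α β : Ω}
    (h0 : ph K α β Φ = 0) (hα : Transcendental K α) (G : K[X][Y]) :
    ph K α β G = 0 ↔ Φ ∣ G := by
  refine ⟨fun hG ↦ ?_, fun ⟨H, hH⟩ ↦ by rw [hH, map_mul, h0, zero_mul]⟩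
  have hprim : Φ.IsPrimitive := hΦ.isPrimitive (by omega)
  let L := FractionRing K[X]
  let i : L →+* Ω := IsFractionRing.lift (ph0_inj hα)
  have hi : i.comp (algebraMap K[X] L) = ph0 K α := by
    ext x
    · simp [i, IsFractionRing.lift_algebraMap]
    · simp [i, IsFractionRing.lift_algebraMap]
  let ψ : L[X] →+* Ω := eval₂RingHom i β
  have hψ : ∀ G : K[X][Y], ψ (G.map (algebraMap K[X] L)) = ph K α β G := by
    intro G
    change eval₂ i β (G.map (algebraMap K[X] L)) = eval₂ (ph0 K α) β G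
    rw [eval₂_map, hi]
  have hirr : Irreducible (Φ.map (algebraMap K[X] L)) :=
    hprim.irreducible_iff_irreducible_map_fraction_map.1 hΦ
  refine hprim.dvd_of_fraction_map_dvd_fraction_map (K := L) ?_
  by_contra hnd
  obtain ⟨u, v, huv⟩ := (hirr.coprime_iff_not_dvd.2 hnd)
  have := congrArg ψ huv
  rw [map_add, map_mul, map_mul, hψ, hψ, h0, hG, mul_zero, mul_zero, add_zero, map_one] at this
  exact zero_ne_one this

/-- Two algebraic closures of a domain are isomorphic. -/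
theorem ext_iso {R S M : Type} [CommRing R] [IsDomain R] [Field S] [Field M]
    (hS : IsAlgClosed S) (hM : IsAlgClosed M) (f : R →+* S) (g : R →+* M)
    (hf : Function.Injective f) (hg : Function.Injective g)
    (hfa : ∀ x : S, ∃ p : R[X], p ≠ 0 ∧ eval₂ f x p = 0)
    (hga : ∀ x : M, ∃ p : R[X], p ≠ 0 ∧ eval₂ g x p = 0) :
    ∃ e : S ≃+* M, ∀ r, e (f r) = g r := by
  let _ := f.toAlgebra
  let _ := g.toAlgebra
  have : FaithfulSMul R S := (faithfulSMul_iff_algebraMap_injective R S).2 hf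
  have : FaithfulSMul R M := (faithfulSMul_iff_algebraMap_injective R M).2 hg
  have : IsAlgClosure R S := ⟨hS, ⟨fun x ↦ hfa x⟩⟩
  have : IsAlgClosure R M := ⟨hM, ⟨fun x ↦ hga x⟩⟩
  exact ⟨(IsAlgClosure.equiv R S M).toRingEquiv, fun r ↦ (IsAlgClosure.equiv R S M).commutes r⟩

open IntermediateField.algebraAdjoinAdjoin in
/-- An element which is algebraic over `K(a)` is a root of a polynomial with coefficients in
`K[a]`. -/
theorem alg_poly {a x : Ω} (h : IsAlgebraic (IntermediateField.adjoin K {a}) x) :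
    ∃ p : K[X][X], p ≠ 0 ∧ eval₂ (ph0 K a) x p = 0 := by
  obtain ⟨q, hq, hqx⟩ := (IsFractionRing.isAlgebraic_iff (Algebra.adjoin K {a})
    (IntermediateField.adjoin K {a}) Ω).2 h
  let π : K[X] →ₐ[K] Algebra.adjoin K {a} :=
    aeval (⟨a, Algebra.self_mem_adjoin_singleton K a⟩ : Algebra.adjoin K {a})
  have hπ : Function.Surjective (π : K[X] →+* Algebra.adjoin K {a}) := by
    rintro ⟨z, hz⟩
    have hz' := hz
    rw [Algebra.adjoin_singleton_eq_range_aeval] at hz'
    obtain ⟨p, hp⟩ := hz'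
    refine ⟨p, Subtype.ext ?_⟩
    refine Eq.trans ?_ hp
    change ((aeval (⟨a, Algebra.self_mem_adjoin_singleton K a⟩ : Algebra.adjoin K {a}) p :
      Algebra.adjoin K {a}) : Ω) = aeval a p
    rw [← Subalgebra.aeval_coe]
  obtain ⟨p, hp⟩ := map_surjective _ hπ q
  refine ⟨p, ?_, ?_⟩
  · rintro rfl
    rw [Polynomial.map_zero] at hp
    exact hq hp.symm
  · have hc : (algebraMap (Algebra.adjoin K {a}) Ω).comp (π : K[X] →+* Algebra.adjoin K {a}) =
        ph0 K a := by
      ext z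
      · change algebraMap (Algebra.adjoin K {a}) Ω (π (C z)) = ph0 K a (C z)
        rw [ph0_C, ← algebraMap_eq, AlgHom.commutes]
        rfl
      · change algebraMap (Algebra.adjoin K {a}) Ω (π X) = ph0 K a X
        rw [ph0_X]
        simp only [π, aeval_X]
        rfl
    rw [← hc, ← eval₂_map, hp]
    exact hqx

/-- Transitivity. -/
theorem alg_trans {a α x : Ω} (h : IsAlgebraic (IntermediateField.adjoin K {a}) x)
    (ha : IsAlgebraic (IntermediateField.adjoin K {α}) a) :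
    IsAlgebraic (IntermediateField.adjoin K {α}) x := by
  let M := algebraicClosure (IntermediateField.adjoin K {α}) Ω
  have hle : IntermediateField.adjoin K {a} ≤ M.restrictScalars K := by
    rw [IntermediateField.adjoin_simple_le_iff]
    exact mem_algebraicClosure_iff.2 ha
  let f : IntermediateField.adjoin K {a} →+* M :=
    { toFun := fun z ↦ ⟨z.1, hle z.2⟩
      map_one' := rfl
      map_mul' := fun _ _ ↦ rfl
      map_zero' := rfl
      map_add' := fun _ _ ↦ rfl }
  have h1 : IsAlgebraic M x := h.ringHom_of_comp_eq f (RingHom.id Ω) f.injective rfl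
  exact h1.restrictScalars (IntermediateField.adjoin K {α})

section main

variable {Φ : K[X][Y]}

/-- The embedding of `K[X][Y]/(Φ)`. -/
def jj (x y : Ω) (h : ∀ G, ph K x y G = 0 ↔ Φ ∣ G) : K[X][Y] ⧸ Ideal.span {Φ} →+* Ω :=
  Ideal.Quotient.lift _ (ph K x y) fun G hG ↦ (h G).2 (Ideal.mem_span_singleton.1 hG)

theorem jj_mk (x y : Ω) (h : ∀ G, ph K x y G = 0 ↔ Φ ∣ G) (G : K[X][Y]) :
    jj x y h (Ideal.Quotient.mk _ G) = ph K x y G := rfl

theorem jj_inj (x y : Ω) (h : ∀ G, ph K x y G = 0 ↔ Φ ∣ G) : Function.Injective (jj x y h) := by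
  rw [injective_iff_map_eq_zero]
  intro z hz
  obtain ⟨G, rfl⟩ := Ideal.Quotient.mk_surjective z
  rw [jj_mk, h] at hz
  rw [Ideal.Quotient.eq_zero_iff_mem, Ideal.mem_span_singleton]
  exact hz

theorem jj_alg (x y : Ω) (h : ∀ G, ph K x y G = 0 ↔ Φ ∣ G) (hx : Transcendental K x)
    (hal : ∀ z : Ω, IsAlgebraic (IntermediateField.adjoin K {x}) z) (z : Ω) :
    ∃ p : (K[X][Y] ⧸ Ideal.span {Φ})[X], p ≠ 0 ∧ eval₂ (jj x y h) z p = 0 := by
  obtain ⟨p, hp, hpz⟩ := alg_poly (hal z)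
  let ι : K[X] →+* K[X][Y] ⧸ Ideal.span {Φ} := (Ideal.Quotient.mk _).comp C
  have hι : (jj x y h).comp ι = ph0 K x := by
    refine RingHom.ext fun q ↦ ?_
    change jj x y h (Ideal.Quotient.mk _ (C q)) = _
    rw [jj_mk, ph_C]
  have hinj : Function.Injective ι := by
    refine Function.Injective.of_comp (f := jj x y h) ?_
    have := ph0_inj hx
    rw [← hι] at this
    exact this
  refine ⟨p.map ι, (Polynomial.map_ne_zero_iff hinj).2 hp, ?_⟩
  rw [eval₂_map, hι, hpz]

end main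

theorem aut : AUT := by
  intro K _ Φ hΦ hpos Ω _ _ a b α β hgen hαβ hα haα
  have hker1 : ∀ G, ph K a b G = 0 ↔ Φ ∣ G := fun G ↦ by
    rw [← evO_eq]
    exact hgen.ker G
  have hker2 : ∀ G, ph K α β G = 0 ↔ Φ ∣ G :=
    ker_ph hΦ hpos.1 (by rw [← evO_eq]; exact hαβ) hα
  have hprime : (Ideal.span {Φ}).IsPrime :=
    (Ideal.span_singleton_prime hΦ.ne_zero).2 hΦ.prime
  have : IsDomain (K[X][Y] ⧸ Ideal.span {Φ}) := Ideal.Quotient.isDomain _
  obtain ⟨e, he⟩ := ext_iso (R := K[X][Y] ⧸ Ideal.span {Φ}) hgen.closed hgen.closed (jj a b hker1) (jj α β hker2)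
    (jj_inj a b hker1) (jj_inj α β hker2) (jj_alg a b hker1 hgen.transa hgen.alg)
    (jj_alg α β hker2 hα fun z ↦ alg_trans (hgen.alg z) haα)
  have he' : ∀ G : K[X][Y], e (ph K a b G) = ph K α β G := fun G ↦ he (Ideal.Quotient.mk _ G)
  refine ⟨AlgEquiv.ofRingEquiv (f := e) fun r ↦ ?_, ?_, ?_⟩
  · have := he' (C (C r))
    rwa [ph_C, ph_C, ph0_C, ph0_C] at this
  · have := he' (C X)
    rwa [ph_C, ph_C, ph0_X, ph0_X] at this
  · have := he' X
    rwa [ph_X, ph_X] at this

end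

end Pool.Agent.Helper22.BL
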